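import Pool.Agent.TH121.WD.Defs

/-!
# Weil-Deligne representations of varieties at a prime `p`: definitions

The notation is that of `Pool.Agent.TH121.WD.Defs`; here `R : Realisations W Λ K` collects the
Weil-Deligne representations at `p` of the cohomology groups `H^i(X)` of the smooth projective
varieties `X` over `ℚ`.
-/

set_option autoImplicit false

open Polynomial

namespace Pool.Agent.TH121.WV

open Pool.Agent.TH121.WD

variable {W : Type} [Group W] {Λ : Type} {K : Λ → Type} [∀ ℓ, Field (K ℓ)]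

/-- The smooth projective varieties `X` over `ℚ` (not necessarily geometrically connected), or a class
of them which is closed under products with the elliptic curve `E` and the schemes `Spec L`, see
`IsCohomology`. -/
structure Varieties (R : Realisations W Λ K) where
  /-- the varieties -/
  Var : Type
  /-- the pair `(X, i)`, with the realisation `H^i(X)`; here `H^i(X) = 0` for `i < 0` -/
  H : Var → ℤ → R.Obj

/-- The map `e` is linear. -/
def IsHom (R : Realisations W Λ K) {X Y : R.Obj} {ℓ : Λ} (e : R.V Y ℓ → R.V X ℓ) : Prop :=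
  (∀ v w, e (R.add v w) = R.add (e v) (e w)) ∧ ∀ c v, e (R.sc c v) = R.sc c (e v)

variable [TopologicalSpace W]

/-- Let `E` be an elliptic curve over `ℚ` with split multiplicative reduction at `p`. Then `H^1(E)` has
a basis `x_0, x_1` with `w x_0 = x_0`, `w x_1 = p^(deg w) x_1`, `N x_0 = 0`, `N x_1 = x_0`, and
`H^2(E) = ℚ_ℓ(-1)`. The group `H^i(X × E)` consists of the sums of an element `a` of `H^i(X)`, an
element `v₀ ⊗ x_0 + v₁ ⊗ x_1` with `v₀`, `v₁` in `H^(i-1)(X)`, and an element `b` of `H^(i-2)(X)(-1)`.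
`IsTimesE G R ℓ a v₀ v₁ b` says: the components `a`, `v₀`, `v₁`, `b` identify `Y` with `H^i(X × E)`,
for `A = H^i(X)`, `B = H^(i-1)(X)`, `C = H^(i-2)(X)`. -/
structure IsTimesE (G : WeilGroup W) (R : Realisations W Λ K) {Y A B C : R.Obj} (ℓ : Λ)
    (a : R.V Y ℓ → R.V A ℓ) (v₀ v₁ : R.V Y ℓ → R.V B ℓ) (b : R.V Y ℓ → R.V C ℓ) : Prop where
  linear : IsHom R a ∧ IsHom R v₀ ∧ IsHom R v₁ ∧ IsHom R b
  bijective : ∀ a' v₀' v₁' b', ∃! y, a y = a' ∧ v₀ y = v₀' ∧ v₁ y = v₁' ∧ b y = b'
  act_a : ∀ w y, a (R.act w y) = R.act w (a y)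
  act_v₀ : ∀ w y, v₀ (R.act w y) = R.act w (v₀ y)
  act_v₁ : ∀ w y, v₁ (R.act w y) = R.sc (qd G w) (R.act w (v₁ y))
  act_b : ∀ w y, b (R.act w y) = R.sc (qd G w) (R.act w (b y))
  nil_a : ∀ y, a (R.nil y) = R.nil (a y)
  nil_v₀ : ∀ y, v₀ (R.nil y) = R.add (R.nil (v₀ y)) (v₁ y)
  nil_v₁ : ∀ y, v₁ (R.nil y) = R.nil (v₁ y)
  nil_b : ∀ y, b (R.nil y) = R.nil (b y)

/-- The properties of the cohomology which are used; they are known for the smooth projective varieties
over `ℚ`. -/
structure IsCohomology (G : WeilGroup W) {R : Realisations W Λ K} (𝒱 : Varieties R) : Prop where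
  finite : ∀ X ℓ, Module.Finite (K ℓ) (R.V X ℓ)
  /-- an open subgroup of the inertia group acts trivially -/
  isOpen : ∀ X ℓ, IsOpen (triv G R X ℓ)
  N_act : ∀ X ℓ w (v : R.V X ℓ), R.nil (R.act w v) = R.sc (qd G w) (R.act w (R.nil v))
  /-- the eigenvalues of Frobenius are algebraic integers (Deligne) -/
  integral : ∀ X ℓ, IsIntegral ℤ (R.ρ X ℓ G.F)
  /-- the products `X × E`, see `IsTimesE` -/
  timesE : ∀ X, ∃ Y, ∀ i ℓ, ∃ (a : R.V (𝒱.H Y i) ℓ → R.V (𝒱.H X i) ℓ)
    (v₀ v₁ : R.V (𝒱.H Y i) ℓ → R.V (𝒱.H X (i - 1)) ℓ)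
    (b : R.V (𝒱.H Y i) ℓ → R.V (𝒱.H X (i - 2)) ℓ), IsTimesE G R ℓ a v₀ v₁ b
  /-- Let `U` be an open subgroup of finite index of the Weil group (that is, `U` is open and not
  contained in the inertia group). There is a number field `L` such that `L ⊗ ℚ_p` is the field
  which corresponds to `U`. For the cohomology of `X × Spec L` see `IsInd`. -/
  timesL : ∀ X (U : Subgroup W), IsOpen (U : Set W) → (∃ u ∈ U, G.deg u ≠ 1) → ∃ Y, ∀ i ℓ,
    ∃ e : R.V (𝒱.H Y i) ℓ → W → R.V (𝒱.H X i) ℓ, IsInd R U ℓ e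

variable (G : WeilGroup W) {R : Realisations W Λ K} (𝒱 : Varieties R)

/-- **Q1 at the prime `p`**: for all smooth projective varieties `X` over `ℚ` and all `i` there is a
polynomial `P` with integral coefficients with `det(1 - T Frob_p) = P` on the invariants of the
inertia group in `H^i(X)`, for all `ℓ`. -/
def QOne : Prop :=
  ∀ X i, ∃ P : ℤ[X], ∀ ℓ,
    HasFactor (inv G R (𝒱.H X i) ℓ) (R.ρ (𝒱.H X i) ℓ G.F) (P.map (Int.castRingHom (K ℓ)))

variable [∀ ℓ, CharZero (K ℓ)]

omit [TopologicalSpace W] in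
/-- **Compatibility of the Weil-Deligne representations**: for all smooth projective varieties `X` over
`ℚ`, all `i`, all `t` and all elements `w` of the Weil group the trace of `w` on the kernel of `N^t` in
`H^i(X)` is a rational number which does not depend on `ℓ`. -/
def Compatible : Prop :=
  ∀ X i (t : ℕ) (w : W), ∃ a : ℚ, ∀ ℓ,
    HasTrace (kerN R (𝒱.H X i) ℓ t) (R.ρ (𝒱.H X i) ℓ w) (a : K ℓ)

end Pool.Agent.TH121.WV
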