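import Pool.Agent.TH121.WV.Ind

/-!
# Extension to all elements of the Weil group, and averages over the inertia group

The proofs are those of `Pool.Agent.TH121.WD.Ext`.
-/

set_option autoImplicit false

open Polynomial Module

namespace Pool.Agent.TH121.WV

open Pool.Agent.TH121.WD

variable {W : Type} [Group W] [TopologicalSpace W] {G : WeilGroup W} {Λ : Type} {K : Λ → Type}
  [∀ ℓ, Field (K ℓ)] {R : Realisations W Λ K} [∀ ℓ, CharZero (K ℓ)]

variable (hR : Basic G R)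

omit [∀ ℓ, CharZero (K ℓ)] in
include hR in
theorem isOpen_JJ (X : R.Obj) (ℓ ℓ' : Λ) : IsOpen (JJ G R X ℓ ℓ' : Set W) := by
  have h := (hR.isOpen X ℓ).inter (hR.isOpen X ℓ')
  convert h using 1
  ext c
  rw [SetLike.mem_coe, mem_JJ, Set.mem_inter_iff, Set.mem_ofPred_eq, Set.mem_ofPred_eq,
    deg_eq_one_iff]
  tauto

omit [∀ ℓ, CharZero (K ℓ)] in
theorem restrict_mul (X : R.Obj) (ℓ : Λ) (t : ℕ) (v w : W) :
    ((R.ρ X ℓ v).restrict (ker_stable hR X ℓ t v) :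
      Module.End (K ℓ) (LinearMap.ker (R.N X ℓ ^ t))) *
      (R.ρ X ℓ w).restrict (ker_stable hR X ℓ t w) =
      (R.ρ X ℓ (v * w)).restrict (ker_stable hR X ℓ t (v * w)) := by
  refine LinearMap.ext fun x => Subtype.ext ?_
  change R.ρ X ℓ v (R.ρ X ℓ w x) = R.ρ X ℓ (v * w) x
  rw [ρ_mul]

omit [∀ ℓ, CharZero (K ℓ)] in
theorem restrict_pow' (X : R.Obj) (ℓ : Λ) (t m : ℕ) (v : W) :
    ((R.ρ X ℓ v).restrict (ker_stable hR X ℓ t v) :
      Module.End (K ℓ) (LinearMap.ker (R.N X ℓ ^ t))) ^ m =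
      (R.ρ X ℓ (v ^ m)).restrict (ker_stable hR X ℓ t (v ^ m)) := by
  induction m with
  | zero =>
    rw [pow_zero]
    refine LinearMap.ext fun x => Subtype.ext ?_
    change (x : R.V X ℓ) = R.ρ X ℓ (v ^ 0) x
    rw [pow_zero, map_one, Module.End.one_apply]
  | succ m ih =>
    rw [pow_succ, ih, restrict_mul hR]
    refine LinearMap.ext fun x => Subtype.ext ?_
    change R.ρ X ℓ (v ^ m * v) x = R.ρ X ℓ (v ^ (m + 1)) x
    rw [pow_succ]

/-- A linear recurrence with rational coefficients for the traces. -/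
theorem recurrence [Nonempty Λ] (X : R.Obj) (t : ℕ)
    (h : ∀ w, 0 < dg G w → ∃ a : ℚ, ∀ ℓ, trK hR X ℓ t w = a) :
    ∃ (n : ℕ) (χ : ℕ → ℚ), χ 0 ≠ 0 ∧ ∀ ℓ w,
      ∑ j ∈ Finset.range (n + 1), (χ j : K ℓ) * trK hR X ℓ t (G.F ^ j * w) = 0 := by
  have hpow : ∀ m : ℕ, 0 < dg G (G.F ^ (m + 1)) := by
    intro m
    have := dg_F_zpow (G := G) ((m + 1 : ℕ) : ℤ)
    rw [zpow_natCast] at this
    rw [this]
    omega
  choose τ hτ using fun m : ℕ => h (G.F ^ (m + 1)) (hpow m)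
  choose c hc using fun k => exists_coeff τ k
  -- the matrices of Frobenius
  have hA : ∀ ℓ, ∃ n : ℕ, ((c n : ℚ) : K ℓ) ≠ 0 ∧ (∀ k, n < k → ((c k : ℚ) : K ℓ) = 0) ∧
      ∀ w, ∑ j ∈ Finset.range (n + 1), ((c (n - j) : ℚ) : K ℓ) *
        trK hR X ℓ t (G.F ^ j * w) = 0 := by
    intro ℓ
    have := hR.finite X ℓ
    set S := LinearMap.ker (R.N X ℓ ^ t) with hS
    let f : Module.End (K ℓ) S := (R.ρ X ℓ G.F).restrict (ker_stable hR X ℓ t G.F)
    let b := Module.finBasis (K ℓ) S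
    let A := LinearMap.toMatrix b b f
    have hAtr : ∀ m, (A ^ (m + 1)).trace = (τ m : K ℓ) := by
      intro m
      rw [← hτ m ℓ]
      unfold trK
      rw [← restrict_pow' hR X ℓ t (m + 1) G.F, LinearMap.trace_eq_matrix_trace (K ℓ) b,
        LinearMap.toMatrix_pow]
    have hcoef : ∀ k, A.charpolyRev.coeff k = ((c k : ℚ) : K ℓ) := fun k =>
      hc k (K ℓ) _ A hAtr
    have hdeg : A.charpoly.natDegree = finrank (K ℓ) S := by
      rw [Matrix.charpoly_natDegree_eq_dim, Fintype.card_fin]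
    have hdet : A.det ≠ 0 := by
      intro h0
      have h1 : LinearMap.det f = 0 := by rw [← LinearMap.det_toMatrix b]; exact h0
      have h2 := LinearMap.bot_lt_ker_of_det_eq_zero h1
      have h3 : LinearMap.ker f = ⊥ := by
        refine LinearMap.ker_eq_bot.2 fun x y hxy => Subtype.ext (ρ_injective X ℓ G.F ?_)
        exact congrArg Subtype.val hxy
      rw [h3] at h2
      exact lt_irrefl _ h2
    have hrev : ∀ k, k ≤ finrank (K ℓ) S →
        A.charpoly.coeff (finrank (K ℓ) S - k) = ((c k : ℚ) : K ℓ) := by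
      intro k hk
      rw [← hcoef, ← Matrix.reverse_charpoly, coeff_reverse, hdeg, revAt_le hk]
    refine ⟨finrank (K ℓ) S, ?_, fun k hk => ?_, fun w => ?_⟩
    · rw [← hrev _ le_rfl, Nat.sub_self]
      intro h0
      apply hdet
      rw [Matrix.det_eq_sign_charpoly_coeff, h0, mul_zero]
    · rw [← hcoef, ← Matrix.reverse_charpoly]
      refine coeff_eq_zero_of_natDegree_lt (lt_of_le_of_lt (reverse_natDegree_le _) ?_)
      rw [hdeg]; exact hk
    · have h1 := LinearMap.aeval_self_charpoly f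
      rw [← LinearMap.charpoly_toMatrix f b, aeval_eq_sum_range, hdeg] at h1
      have h2 := congrArg (fun g => LinearMap.trace (K ℓ) S
        (g * ((R.ρ X ℓ w).restrict (ker_stable hR X ℓ t w) : Module.End (K ℓ) S))) h1
      simp only [zero_mul, map_zero, Finset.sum_mul, map_sum] at h2
      rw [← h2]
      refine Finset.sum_congr rfl fun j hj => ?_
      rw [Finset.mem_range] at hj
      have h3 : f ^ j * ((R.ρ X ℓ w).restrict (ker_stable hR X ℓ t w) : Module.End (K ℓ) S) =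
          (R.ρ X ℓ (G.F ^ j * w)).restrict (ker_stable hR X ℓ t (G.F ^ j * w)) := by
        rw [← restrict_mul hR, ← restrict_pow' hR]
      rw [smul_mul_assoc, h3, map_smul, smul_eq_mul]
      congr 1
      rw [← hrev (finrank (K ℓ) S - j) (by omega)]
      congr 1
      omega
  obtain ⟨ℓ₀⟩ := ‹Nonempty Λ›
  obtain ⟨n, h1, h2, h3⟩ := hA ℓ₀
  refine ⟨n, fun j => c (n - j), ?_, fun ℓ w => ?_⟩
  · intro h0
    apply h1
    have h0' : c (n - 0) = 0 := h0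
    rw [Nat.sub_zero] at h0'
    rw [h0', Rat.cast_zero]
  · obtain ⟨n', h1', h2', h3'⟩ := hA ℓ
    have hz : ∀ k, ((c k : ℚ) : K ℓ) = 0 ↔ ((c k : ℚ) : K ℓ₀) = 0 := fun k => by
      rw [Rat.cast_eq_zero, Rat.cast_eq_zero]
    have hnn : n' = n := by
      rcases lt_trichotomy n' n with hlt | heq | hgt
      · exact absurd ((hz n).1 (h2' n hlt)) h1
      · exact heq
      · exact absurd ((hz n').2 (h2 n' hgt)) h1'
    subst hnn
    exact h3' w

/-- Extension to all elements. -/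
theorem all_trace (X : R.Obj) (t : ℕ)
    (h : ∀ w, 0 < dg G w → ∃ a : ℚ, ∀ ℓ, trK hR X ℓ t w = a) (w : W) :
    ∃ a : ℚ, ∀ ℓ, trK hR X ℓ t w = a := by
  rcases isEmpty_or_nonempty Λ with he | hne
  · exact ⟨0, fun ℓ => (he.false ℓ).elim⟩
  obtain ⟨n, χ, hχ, hrec⟩ := recurrence hR X t h
  have key : ∀ k : ℕ, ∀ w, 1 - (k : ℤ) ≤ dg G w → ∃ a : ℚ, ∀ ℓ, trK hR X ℓ t w = a := by
    intro k
    induction k with
    | zero => exact fun w hw => h w (by push_cast at hw; omega)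
    | succ k ih =>
      intro w hw
      have hj : ∀ j : ℕ, 1 - (k : ℤ) ≤ dg G (G.F ^ (j + 1) * w) := by
        intro j
        have := dg_F_zpow (G := G) ((j + 1 : ℕ) : ℤ)
        rw [zpow_natCast] at this
        rw [dg_mul, this]
        push_cast at hw ⊢
        omega
      choose a ha using fun j => ih _ (hj j)
      refine ⟨- (χ 0)⁻¹ * ∑ j ∈ Finset.range n, χ (j + 1) * a j, fun ℓ => ?_⟩
      have h1 := hrec ℓ w
      rw [Finset.sum_range_succ', pow_zero, one_mul] at h1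
      have h2 : ∀ j ∈ Finset.range n, (χ (j + 1) : K ℓ) * trK hR X ℓ t (G.F ^ (j + 1) * w) =
          ((χ (j + 1) * a j : ℚ) : K ℓ) := by
        intro j _
        rw [ha, Rat.cast_mul]
      rw [Finset.sum_congr rfl h2] at h1
      have h3 : ((χ 0 : ℚ) : K ℓ) ≠ 0 := by
        rw [Ne, Rat.cast_eq_zero]; exact hχ
      have h4 : trK hR X ℓ t w = - ((χ 0 : K ℓ)⁻¹ *
          ∑ j ∈ Finset.range n, ((χ (j + 1) * a j : ℚ) : K ℓ)) := by
        have h5 : (χ 0 : K ℓ) * trK hR X ℓ t w =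
            - ∑ j ∈ Finset.range n, ((χ (j + 1) * a j : ℚ) : K ℓ) := by
          linear_combination h1
        rw [← mul_neg, ← h5, inv_mul_cancel_left₀ h3]
      rw [h4]
      push_cast
      ring
  refine key (1 - dg G w).toNat w ?_
  have := Int.self_le_toNat (1 - dg G w)
  omega

/-! ### The converse -/

/-- The traces on the invariants of inertia are averages. -/
theorem trI_average [IsTopologicalGroup W] (X : R.Obj) (ℓ ℓ' : Λ) :
    ∃ (Q : Type) (_ : Fintype Q) (_ : Nonempty Q) (r : Q → W),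
    ∀ ℓ₁, (∀ c ∈ JJ G R X ℓ ℓ', R.ρ X ℓ₁ c = 1) →
      ∀ m, (Fintype.card Q : K ℓ₁) * trI hR X ℓ₁ m = ∑ q, trK hR X ℓ₁ 1 (G.F ^ m * r q) := by
  set I := G.deg.ker with hI
  have hcomp : CompactSpace I := isCompact_iff_compactSpace.1 G.isCompact_inertia
  let J' : Subgroup I := (JJ G R X ℓ ℓ').subgroupOf I
  have hopen : IsOpen (J' : Set I) := (isOpen_JJ hR X ℓ ℓ').preimage continuous_subtype_val
  have hfin : Finite (I ⧸ J') := Subgroup.quotient_finite_of_isOpen J' hopen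
  let _ : Fintype (I ⧸ J') := Fintype.ofFinite _
  let r : I ⧸ J' → W := fun q => (Quotient.out q : I)
  refine ⟨I ⧸ J', inferInstance, ⟨(1 : I)⟩, r, fun ℓ₁ hJ1 m => ?_⟩
  have := hR.finite X ℓ₁
  have hr : ∀ q, G.deg (r q) = 1 := fun q => (Quotient.out q : I).2
  have hcard : (Fintype.card (I ⧸ J') : K ℓ₁) ≠ 0 := by
    rw [Nat.cast_ne_zero]
    have : Nonempty (I ⧸ J') := ⟨(1 : I)⟩
    exact Fintype.card_ne_zero
  let E : Module.End (K ℓ₁) (R.V X ℓ₁) := ∑ q, R.ρ X ℓ₁ (r q)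
  have hEapp : ∀ v, E v = ∑ q, R.ρ X ℓ₁ (r q) v := fun v => by
    simp only [E, LinearMap.sum_apply]
  -- the average is invariant
  have hEh : ∀ h, G.deg h = 1 → ∀ v, R.ρ X ℓ₁ h (E v) = E v := by
    intro h hh v
    let h' : I := ⟨h, hh⟩
    rw [hEapp, map_sum, ← Equiv.sum_comp (MulAction.toPerm h') (fun q => R.ρ X ℓ₁ (r q) v)]
    refine Finset.sum_congr rfl fun q _ => ?_
    rw [ρ_mul]
    have h1 : (Quotient.out (h' • q) : I)⁻¹ * (h' * Quotient.out q) ∈ J' := by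
      rw [← QuotientGroup.eq]
      have h2 : ((Quotient.out (h' • q) : I) : I ⧸ J') = h' • q := Quotient.out_eq _
      have h3 : ((h' * (Quotient.out q : I) : I) : I ⧸ J') = h' • q := by
        have h4 : ((Quotient.out q : I) : I ⧸ J') = q := Quotient.out_eq _
        conv_rhs => rw [← h4]
        rfl
      rw [h2, h3]
    have h2 : R.ρ X ℓ₁ ((r (h' • q))⁻¹ * (h * r q)) = 1 := hJ1 _ h1
    change R.ρ X ℓ₁ (h * r q) v = R.ρ X ℓ₁ (r (h' • q)) v
    have h3 : h * r q = r (h' • q) * ((r (h' • q))⁻¹ * (h * r q)) := by group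
    rw [h3, map_mul, h2, mul_one]
  set B := LinearMap.ker (R.N X ℓ₁ ^ 1) with hB
  have hEB : ∀ v ∈ B, E v ∈ B := by
    intro v hv
    rw [hEapp]
    exact Submodule.sum_mem _ fun q _ => ker_stable hR X ℓ₁ 1 (r q) v hv
  have hle : inv' G R X ℓ₁ ≤ B := by
    intro v hv
    rw [hB, LinearMap.mem_ker, pow_one]
    exact hv.1
  have hB1 : ∀ x, x ∈ B → R.N X ℓ₁ x = 0 := fun x hx => by
    rw [hB, LinearMap.mem_ker, pow_one] at hx; exact hx
  have hEinv : ∀ v ∈ inv' G R X ℓ₁, E v = (Fintype.card (I ⧸ J') : K ℓ₁) • v := by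
    intro v hv
    rw [hEapp, Finset.sum_congr rfl fun q _ => hv.2 (r q) (hr q), Finset.sum_const,
      Finset.card_univ, Nat.cast_smul_eq_nsmul]
  let π : B →ₗ[K ℓ₁] inv' G R X ℓ₁ :=
    { toFun := fun v => ⟨(Fintype.card (I ⧸ J') : K ℓ₁)⁻¹ • E v,
        Submodule.smul_mem _ _ ⟨hB1 _ (hEB v v.2), fun h hh => hEh h hh v⟩⟩
      map_add' := fun v w => by
        apply Subtype.ext
        change _ • E (v + w : R.V X ℓ₁) = _ • E v + _ • E w
        rw [map_add, smul_add]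
      map_smul' := fun c v => by
        apply Subtype.ext
        change _ • E (c • (v : R.V X ℓ₁)) = c • (_ • E v)
        rw [map_smul, smul_comm] }
  let ι : inv' G R X ℓ₁ →ₗ[K ℓ₁] B := Submodule.inclusion hle
  let FB : B →ₗ[K ℓ₁] B := (R.ρ X ℓ₁ (G.F ^ m)).restrict (ker_stable hR X ℓ₁ 1 (G.F ^ m))
  have h1 : (((R.ρ X ℓ₁ G.F).restrict (inv_stable hR X ℓ₁ G.F) :
      Module.End (K ℓ₁) (inv' G R X ℓ₁)) ^ m) = π ∘ₗ (FB ∘ₗ ι) := by
    refine LinearMap.ext fun v => Subtype.ext ?_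
    have h2 : ((((R.ρ X ℓ₁ G.F).restrict (inv_stable hR X ℓ₁ G.F) :
      Module.End (K ℓ₁) (inv' G R X ℓ₁)) ^ m) v : R.V X ℓ₁) = R.ρ X ℓ₁ (G.F ^ m) v := by
      rw [map_pow, Module.End.pow_restrict]
      rfl
    rw [h2]
    change R.ρ X ℓ₁ (G.F ^ m) v = (Fintype.card (I ⧸ J') : K ℓ₁)⁻¹ • E (R.ρ X ℓ₁ (G.F ^ m) v)
    rw [hEinv _ (inv_stable hR X ℓ₁ _ v v.2), smul_smul, inv_mul_cancel₀ hcard, one_smul]
  have h3 : (FB ∘ₗ ι) ∘ₗ π = (Fintype.card (I ⧸ J') : K ℓ₁)⁻¹ •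
      ∑ q, ((R.ρ X ℓ₁ (G.F ^ m * r q)).restrict (ker_stable hR X ℓ₁ 1 (G.F ^ m * r q)) :
        B →ₗ[K ℓ₁] B) := by
    refine LinearMap.ext fun v => Subtype.ext ?_
    rw [LinearMap.smul_apply, LinearMap.sum_apply, Submodule.coe_smul, Submodule.coe_sum]
    change R.ρ X ℓ₁ (G.F ^ m) ((Fintype.card (I ⧸ J') : K ℓ₁)⁻¹ • E v) =
      (Fintype.card (I ⧸ J') : K ℓ₁)⁻¹ • ∑ q, R.ρ X ℓ₁ (G.F ^ m * r q) v
    rw [map_smul, hEapp, map_sum]
    congr 1
    exact Finset.sum_congr rfl fun q _ => ρ_mul X ℓ₁ _ _ _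
  unfold trI
  rw [h1, LinearMap.trace_comp_comm', h3, map_smul, map_sum, smul_eq_mul,
    mul_inv_cancel_left₀ hcard]
  rfl

/-- Compatibility implies Q1. -/
theorem qOne_of_compatible [IsTopologicalGroup W] (X : R.Obj)
    (h : ∀ w, ∃ a : ℚ, ∀ ℓ, trK hR X ℓ 1 w = a) :
    ∃ P : ℚ[X], ∀ ℓ, HasFactor (inv' G R X ℓ) (R.ρ X ℓ G.F) (P.map (algebraMap ℚ (K ℓ))) := by
  choose a ha using h
  have h1 : ∀ m, ∃ b : ℚ, ∀ ℓ, trI hR X ℓ m = b := by
    intro m
    refine of_pairs _ fun ℓ ℓ' => ?_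
    obtain ⟨Q, hQ1, hQ2, r, hr⟩ := trI_average hR X ℓ ℓ'
    have key : ∀ ℓ₁, (∀ c ∈ JJ G R X ℓ ℓ', R.ρ X ℓ₁ c = 1) →
        trI hR X ℓ₁ m = (((Fintype.card Q : ℚ)⁻¹ * ∑ q, a (G.F ^ m * r q) : ℚ) : K ℓ₁) := by
      intro ℓ₁ hJ1
      have h2 := hr ℓ₁ hJ1 m
      have h3 : (Fintype.card Q : K ℓ₁) ≠ 0 := by
        rw [Nat.cast_ne_zero]; exact Fintype.card_ne_zero
      rw [Finset.sum_congr rfl fun q _ => ha (G.F ^ m * r q) ℓ₁] at h2
      rw [Rat.cast_mul, Rat.cast_inv, Rat.cast_natCast, Rat.cast_sum, ← h2,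
        inv_mul_cancel_left₀ h3]
    exact ⟨_, key ℓ fun c hc => (mem_JJ.1 hc).2.1, key ℓ' fun c hc => (mem_JJ.1 hc).2.2⟩
  choose τ hτ using fun m : ℕ => h1 (m + 1)
  choose c hc using fun k => exists_coeff τ k
  rcases isEmpty_or_nonempty Λ with he | ⟨⟨ℓ₀⟩⟩
  · exact ⟨0, fun ℓ => (he.false ℓ).elim⟩
  have hA : ∀ ℓ, ∃ A : (K ℓ)[X], HasFactor (inv' G R X ℓ) (R.ρ X ℓ G.F) A ∧
      ∀ k, A.coeff k = ((c k : ℚ) : K ℓ) := by
    intro ℓ
    have := hR.finite X ℓ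
    obtain ⟨n, A, -, h3, h4, -⟩ := hasFactor_of_finite (inv_stable hR X ℓ G.F)
    refine ⟨_, h3, fun k => hc k (K ℓ) n A fun m => ?_⟩
    rw [h4]
    exact hτ m ℓ
  obtain ⟨A₀, -, hA₀⟩ := hA ℓ₀
  refine ⟨∑ k ∈ Finset.range (A₀.natDegree + 1), monomial k (c k), fun ℓ => ?_⟩
  obtain ⟨A, hA1, hA2⟩ := hA ℓ
  convert hA1 using 1
  refine Polynomial.ext fun k => ?_
  rw [coeff_map, finsetSum_coeff, hA2]
  simp only [coeff_monomial]
  rw [Finset.sum_ite_eq' (Finset.range (A₀.natDegree + 1)) k]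
  split_ifs with hk
  · rw [eq_ratCast]
  · rw [Finset.mem_range, not_lt] at hk
    have h5 := hA₀ k
    rw [coeff_eq_zero_of_natDegree_lt (by omega)] at h5
    rw [map_zero]
    rw [eq_comm, Rat.cast_eq_zero] at h5
    rw [h5, Rat.cast_zero]

end Pool.Agent.TH121.WV
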