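import Pool.Agent.TH121.WV.Prod

/-!
# Integrality of the coefficients
-/

set_option autoImplicit false

open Polynomial Module

namespace Pool.Agent.TH121.WV

open Pool.Agent.TH121.WD

theorem isIntegral_restrict {K V : Type} [Field K] [AddCommGroup V] [Module K V]
    {S : Submodule K V} {f : Module.End K V} (h : ∀ v ∈ S, f v ∈ S) (hf : IsIntegral ℤ f) :
    IsIntegral ℤ (f.restrict h : Module.End K S) := by
  obtain ⟨p, hp, h0⟩ := hf
  refine ⟨p, hp, ?_⟩
  have h1 : aeval f p = 0 := h0
  change aeval (f.restrict h : Module.End K S) p = 0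
  refine LinearMap.ext fun x => Subtype.ext ?_
  have h2 := congrArg (fun g : Module.End K V => g (x : V)) h1
  simp only [aeval_eq_sum_range, LinearMap.sum_apply, LinearMap.smul_apply,
    LinearMap.zero_apply] at h2
  rw [aeval_eq_sum_range, LinearMap.sum_apply, Submodule.coe_sum]
  rw [LinearMap.zero_apply, Submodule.coe_zero]
  rw [← h2]
  refine Finset.sum_congr rfl fun i _ => ?_
  rw [LinearMap.smul_apply, Module.End.pow_restrict]
  rfl

theorem isIntegral_charpoly {K : Type} [Field K] {n : ℕ} (A : Matrix (Fin n) (Fin n) K)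
    (hA : IsIntegral ℤ A) (i : ℕ) : IsIntegral ℤ (A.charpoly.coeff i) := by
  let L := AlgebraicClosure K
  let φ : Matrix (Fin n) (Fin n) K →+* Module.End L (Fin n → L) :=
    (Matrix.toLinAlgEquiv' (R := L) (n := Fin n)).toRingEquiv.toRingHom.comp
      (algebraMap K L).mapMatrix
  have h1 : IsIntegral ℤ (φ A) := hA.map φ.toIntAlgHom
  obtain ⟨p, hp, h0⟩ := h1
  have h0' : aeval (φ A) p = 0 := h0
  have h2 : (φ A).charpoly = (A.map (algebraMap K L)).charpoly := by
    rw [← LinearMap.charpoly_toMatrix (φ A) (Pi.basisFun L (Fin n))]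
    congr 1
    exact LinearMap.toMatrix'_toLin' _
  have h3 : IsIntegral ℤ (algebraMap K L (A.charpoly.coeff i)) := by
    rw [← coeff_map, ← Matrix.charpoly_map]
    refine isIntegral_coeff_of_factors _ ?_ (IsAlgClosed.splits _) (fun x hx => ?_) i
    · rw [(Matrix.charpoly_monic _).leadingCoeff]
      exact isIntegral_one
    · have hx' : (φ A).charpoly.IsRoot x := by rw [h2]; exact hx
      rw [← Module.End.hasEigenvalue_iff_isRoot_charpoly] at hx'
      obtain ⟨v, hv⟩ := hx'.exists_hasEigenvector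
      refine ⟨p, hp, ?_⟩
      have h4 := Module.End.aeval_apply_of_hasEigenvector (p := p.map (algebraMap ℤ L)) hv
      rw [aeval_map_algebraMap, h0', LinearMap.zero_apply, eq_comm, smul_eq_zero] at h4
      rw [← eval_map]
      exact h4.resolve_right hv.2
  exact (isIntegral_algebraMap_iff (algebraMap K L).injective).1 h3

theorem isIntegral_hasFactor {K V : Type} [Field K] [AddCommGroup V] [Module K V]
    {S : Submodule K V} {f : Module.End K V} (h : ∀ v ∈ S, f v ∈ S) (hf : IsIntegral ℤ f)
    {P : K[X]} (hP : HasFactor S f P) (i : ℕ) : IsIntegral ℤ (P.coeff i) := by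
  obtain ⟨n, A, hA, rfl⟩ := hP
  obtain ⟨b, rfl⟩ := (isMatrixOn_iff h A).1 hA
  have h1 : IsIntegral ℤ (LinearMap.toMatrix b b (f.restrict h)) :=
    (isIntegral_restrict h hf).map
      (LinearMap.toMatrixAlgEquiv b).toRingEquiv.toRingHom.toIntAlgHom
  change IsIntegral ℤ ((LinearMap.toMatrix b b (f.restrict h)).charpolyRev.coeff i)
  rw [← Matrix.reverse_charpoly, coeff_reverse]
  exact isIntegral_charpoly _ h1 _

/-- A polynomial with rational coefficients which are integral. -/
theorem exists_int_polynomial (P : ℚ[X]) (h : ∀ i, IsIntegral ℤ (P.coeff i)) :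
    ∃ Q : ℤ[X], Q.map (Int.castRingHom ℚ) = P := by
  have h1 : P ∈ lifts (Int.castRingHom ℚ) := by
    rw [lifts_iff_coeff_lifts]
    intro i
    obtain ⟨y, hy⟩ := IsIntegrallyClosed.isIntegral_iff.1 (h i)
    exact ⟨y, hy⟩
  obtain ⟨Q, hQ⟩ := (mem_lifts _).1 h1
  exact ⟨Q, hQ⟩

end Pool.Agent.TH121.WV
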