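import Pool.Agent.TH121.WV.Integral

/-!
# The main theorem for varieties
-/

set_option autoImplicit false

open Polynomial Module

namespace Pool.Agent.TH121.WV

open Pool.Agent.TH121.WD

variable {W : Type} [Group W] [TopologicalSpace W] {G : WeilGroup W} {Λ : Type} {K : Λ → Type}
  [∀ ℓ, Field (K ℓ)] {R : Realisations W Λ K} {𝒱 : Varieties R} [∀ ℓ, CharZero (K ℓ)]

variable (hV : IsCohomology G 𝒱)

/-- The traces on the kernel of `N^0`. -/
theorem trK_zero (hR : Basic G R) (X : R.Obj) (ℓ : Λ) (w : W) : trK hR X ℓ 0 w = 0 := by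
  unfold trK
  have h2 : ((R.ρ X ℓ w).restrict (ker_stable hR X ℓ 0 w) :
      Module.End (K ℓ) (LinearMap.ker (R.N X ℓ ^ 0))) = 0 := by
    refine LinearMap.ext fun x => Subtype.ext ?_
    have h0 : ∀ y ∈ LinearMap.ker (R.N X ℓ ^ 0), y = 0 := fun y hy => by
      rwa [LinearMap.mem_ker, pow_zero, Module.End.one_apply] at hy
    have h3 : (x : R.V X ℓ) = 0 := h0 _ x.2
    change R.ρ X ℓ w x = 0
    rw [h3, map_zero]
  rw [h2, map_zero]

/-- The trace of an element of positive degree on the kernel of `N`. -/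
theorem pos_trace_one [IsTopologicalGroup W] (hQ : QOne G 𝒱) (X : 𝒱.Var) (i : ℤ) (w : W)
    (hw : 0 < dg G w) : ∃ a : ℚ, ∀ ℓ, trK hV.basic (𝒱.H X i) ℓ 1 w = a := by
  have hR := hV.basic
  refine of_pairs _ fun ℓ ℓ' => ?_
  set J := JJ G R (𝒱.H X i) ℓ ℓ' with hJ
  obtain ⟨n, hn⟩ := Int.eq_ofNat_of_zero_le hw.le
  have hn0 : 0 < n := by omega
  have hopen : IsOpen ((J ⊔ Subgroup.zpowers w : Subgroup W) : Set W) :=
    Subgroup.isOpen_mono (le_sup_left : J ≤ J ⊔ Subgroup.zpowers w) (isOpen_JJ hR _ ℓ ℓ')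
  obtain ⟨Y, hY⟩ := hV.timesL X (J ⊔ Subgroup.zpowers w) hopen
    ⟨w, Subgroup.mem_sup_right (Subgroup.mem_zpowers w), fun h => by
      rw [deg_eq_one_iff] at h; omega⟩
  obtain ⟨P, hP⟩ := hQ Y i
  obtain ⟨m, rfl⟩ : ∃ m, n = m + 1 := ⟨n - 1, by omega⟩
  obtain ⟨a, ha⟩ := exists_trace (P.map (Int.castRingHom ℚ)) m
  have key : ∀ ℓ₁, (∀ c ∈ J, R.ρ (𝒱.H X i) ℓ₁ c = 1) →
      trK hV.basic (𝒱.H X i) ℓ₁ 1 w = ((a / ((m + 1 : ℕ) : ℚ) : ℚ) : K ℓ₁) := by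
    intro ℓ₁ hJ1
    obtain ⟨e, he⟩ := hY i ℓ₁
    let e' : R.V (𝒱.H Y i) ℓ₁ →ₗ[K ℓ₁] (W → R.V (𝒱.H X i) ℓ₁) :=
      ⟨⟨e, fun v w => funext fun s => he.isLin.1 v w s⟩,
        fun c v => funext fun s => he.isLin.2 c v s⟩
    have h5 := trI_artin (e := e') hR he.injective he.range he.act he.nil hn0 hn
      (fun g c hc => hJ ▸ conj_JJ g c (hJ ▸ hc))
      (fun c hc => (mem_JJ.1 (hJ ▸ hc)).1) hJ1 rfl
    obtain ⟨n', A, hA1, hA2⟩ := hasFactor_traces (inv_stable hR (𝒱.H Y i) ℓ₁ G.F) (hP ℓ₁)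
    have hA1' : A.charpolyRev = (P.map (Int.castRingHom ℚ)).map (algebraMap ℚ (K ℓ₁)) := by
      rw [hA1, Polynomial.map_map]
      congr 1
      exact RingHom.ext_int _ _
    have h6 := ha (K ℓ₁) n' A hA1'
    rw [hA2] at h6
    have h7 : trI hR (𝒱.H Y i) ℓ₁ (m + 1) = (a : K ℓ₁) := h6
    rw [h7] at h5
    have h8 : ((m + 1 : ℕ) : K ℓ₁) ≠ 0 := Nat.cast_ne_zero.2 (by omega)
    rw [Rat.cast_div, h5, Rat.cast_natCast, mul_div_cancel_left₀ _ h8]
  exact ⟨_, key ℓ fun c hc => (mem_JJ.1 (hJ ▸ hc)).2.1, key ℓ' fun c hc =>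
    (mem_JJ.1 (hJ ▸ hc)).2.2⟩

/-- The traces of the elements of positive degree on the kernels of the powers of `N`. -/
theorem pos_trace [IsTopologicalGroup W] (hQ : QOne G 𝒱) (t : ℕ) :
    ∀ (X : 𝒱.Var) (i : ℤ) (w : W), 0 < dg G w →
      ∃ a : ℚ, ∀ ℓ, trK hV.basic (𝒱.H X i) ℓ t w = a := by
  induction t using Nat.strong_induction_on with
  | _ t ih =>
    rcases t with - | t
    · intro X i w _
      exact ⟨0, fun ℓ => by rw [trK_zero, Rat.cast_zero]⟩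
    · rcases t with - | t
      · intro X i w hw
        exact pos_trace_one hV hQ X i w hw
      · intro X i w hw
        obtain ⟨Y, hY⟩ := hV.timesE X
        obtain ⟨a₁, h1⟩ := ih (t + 1) (by omega) Y (i + 1) w hw
        obtain ⟨a₂, h2⟩ := ih (t + 1) (by omega) X (i + 1) w hw
        obtain ⟨a₃, h3⟩ := ih t (by omega) X i w hw
        obtain ⟨a₄, h4⟩ := ih (t + 1) (by omega) X (i - 1) w hw
        refine ⟨a₁ - a₂ - (G.p : ℚ) ^ (dg G w) * a₃ - (G.p : ℚ) ^ (dg G w) * a₄,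
          fun ℓ => ?_⟩
        obtain ⟨a, v₀, v₁, b, hab⟩ := hY (i + 1) ℓ
        have h5 := trK_timesE hV.basic hab t w
        have e1 : i + 1 - 1 = i := by ring
        have e2 : i + 1 - 2 = i - 1 := by ring
        rw [e1, e2, h1, h2, h3, h4, qd_eq] at h5
        push_cast
        linear_combination -h5

include hV in
/-- **The main theorem.** -/
theorem main [IsTopologicalGroup W] : QOne G 𝒱 ↔ Compatible 𝒱 := by
  have hR := hV.basic
  constructor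
  · intro hQ X i t w
    obtain ⟨a, ha⟩ := all_trace hR (𝒱.H X i) t (fun w hw => pos_trace hV hQ t X i w hw) w
    exact ⟨a, fun ℓ => (hasTrace_trK hR (𝒱.H X i) ℓ t w _).2 (ha ℓ)⟩
  · intro hC X i
    obtain ⟨P, hP⟩ := qOne_of_compatible hR (𝒱.H X i) fun w => by
      obtain ⟨a, ha⟩ := hC X i 1 w
      exact ⟨a, fun ℓ => (hasTrace_trK hR (𝒱.H X i) ℓ 1 w _).1 (ha ℓ)⟩
    rcases isEmpty_or_nonempty Λ with he | ⟨⟨ℓ₀⟩⟩
    · exact ⟨0, fun ℓ => (he.false ℓ).elim⟩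
    obtain ⟨Q, rfl⟩ := exists_int_polynomial P fun k => by
      have h1 := isIntegral_hasFactor (inv_stable hR (𝒱.H X i) ℓ₀ G.F)
        (hV.integral (𝒱.H X i) ℓ₀) (hP ℓ₀) k
      rw [coeff_map] at h1
      exact (isIntegral_algebraMap_iff (algebraMap ℚ (K ℓ₀)).injective).1 h1
    refine ⟨Q, fun ℓ => ?_⟩
    have h2 : Q.map (Int.castRingHom (K ℓ)) =
        (Q.map (Int.castRingHom ℚ)).map (algebraMap ℚ (K ℓ)) := by
      rw [Polynomial.map_map]
      congr 1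
      exact RingHom.ext_int _ _
    rw [h2]
    exact hP ℓ

end Pool.Agent.TH121.WV
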