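import Pool.Agent.TH121.WV.Ext

/-!
# The product with a Tate curve
-/

set_option autoImplicit false

open Polynomial Module

namespace Pool.Agent.TH121.WV

open Pool.Agent.TH121.WD

section linear

variable {k VY VA VB VC : Type} [Field k] [CharZero k] [AddCommGroup VY] [Module k VY]
  [AddCommGroup VA] [Module k VA] [AddCommGroup VB] [Module k VB] [AddCommGroup VC] [Module k VC]

omit [CharZero k] in
theorem comp_pow {f : VY →ₗ[k] VA} {N : Module.End k VY} {M : Module.End k VA}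
    (h : ∀ y, f (N y) = M (f y)) (j : ℕ) (y : VY) : f ((N ^ j) y) = (M ^ j) (f y) := by
  induction j with
  | zero => simp
  | succ j ih => rw [pow_succ', pow_succ', Module.End.mul_apply, Module.End.mul_apply, h, ih]

omit [CharZero k] in
theorem v₀_pow {f₀ f₁ : VY →ₗ[k] VB} {N : Module.End k VY} {M : Module.End k VB}
    (h0 : ∀ y, f₀ (N y) = M (f₀ y) + f₁ y) (h1 : ∀ y, f₁ (N y) = M (f₁ y)) (j : ℕ) (y : VY) :
    f₀ ((N ^ (j + 1)) y) = (M ^ j) (M (f₀ y) + ((j + 1 : ℕ) : k) • f₁ y) := by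
  induction j generalizing y with
  | zero => simp [h0]
  | succ j ih =>
    rw [pow_succ, Module.End.mul_apply, ih, h0, h1, pow_succ, Module.End.mul_apply]
    congr 1
    simp only [map_add, map_smul]
    push_cast
    module

/-- The kernel of `N^(m+1)` in the tensor product. -/
theorem trace_timesE [Module.Finite k VY] [Module.Finite k VA] [Module.Finite k VB]
    [Module.Finite k VC] {NY : Module.End k VY} {NA : Module.End k VA} {NB : Module.End k VB}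
    {NC : Module.End k VC} {a : VY →ₗ[k] VA} {v₀ v₁ : VY →ₗ[k] VB} {b : VY →ₗ[k] VC}
    (hbij : ∀ a' v₀' v₁' b', ∃! y, a y = a' ∧ v₀ y = v₀' ∧ v₁ y = v₁' ∧ b y = b')
    (ha : ∀ y, a (NY y) = NA (a y)) (h0 : ∀ y, v₀ (NY y) = NB (v₀ y) + v₁ y)
    (h1 : ∀ y, v₁ (NY y) = NB (v₁ y)) (hb : ∀ y, b (NY y) = NC (b y)) (q : k)
    {gY : Module.End k VY} {gA : Module.End k VA} {gB : Module.End k VB} {gC : Module.End k VC}
    (hga : ∀ y, a (gY y) = gA (a y)) (hg0 : ∀ y, v₀ (gY y) = gB (v₀ y))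
    (hg1 : ∀ y, v₁ (gY y) = q • gB (v₁ y)) (hgb : ∀ y, b (gY y) = q • gC (b y))
    (hNg : ∀ x, NB (gB x) = q • gB (NB x)) (m : ℕ)
    (sY : ∀ v ∈ LinearMap.ker (NY ^ (m + 1)), gY v ∈ LinearMap.ker (NY ^ (m + 1)))
    (sA : ∀ v ∈ LinearMap.ker (NA ^ (m + 1)), gA v ∈ LinearMap.ker (NA ^ (m + 1)))
    (sB : ∀ v ∈ LinearMap.ker (NB ^ (m + 2)), gB v ∈ LinearMap.ker (NB ^ (m + 2)))
    (sB' : ∀ v ∈ LinearMap.ker (NB ^ m), gB v ∈ LinearMap.ker (NB ^ m))
    (sC : ∀ v ∈ LinearMap.ker (NC ^ (m + 1)), gC v ∈ LinearMap.ker (NC ^ (m + 1))) :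
    LinearMap.trace k _ (gY.restrict sY) = LinearMap.trace k _ (gA.restrict sA) +
      (LinearMap.trace k _ (gB.restrict sB) + (q * LinearMap.trace k _ (gB.restrict sB') +
        q * LinearMap.trace k _ (gC.restrict sC))) := by
  have hm : ((m + 1 : ℕ) : k) ≠ 0 := Nat.cast_ne_zero.2 (Nat.succ_ne_zero m)
  let u : VY →ₗ[k] VB := NB ∘ₗ v₀ + ((m + 1 : ℕ) : k) • v₁
  have hu : ∀ y, u y = NB (v₀ y) + ((m + 1 : ℕ) : k) • v₁ y := fun y => rfl
  have mA : ∀ y ∈ LinearMap.ker (NY ^ (m + 1)), a y ∈ LinearMap.ker (NA ^ (m + 1)) := by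
    intro y hy
    rw [LinearMap.mem_ker] at hy ⊢
    rw [← comp_pow ha, hy, map_zero]
  have mC : ∀ y ∈ LinearMap.ker (NY ^ (m + 1)), b y ∈ LinearMap.ker (NC ^ (m + 1)) := by
    intro y hy
    rw [LinearMap.mem_ker] at hy ⊢
    rw [← comp_pow hb, hy, map_zero]
  have m1 : ∀ y ∈ LinearMap.ker (NY ^ (m + 1)), v₁ y ∈ LinearMap.ker (NB ^ (m + 1)) := by
    intro y hy
    rw [LinearMap.mem_ker] at hy ⊢
    rw [← comp_pow h1, hy, map_zero]
  have mu : ∀ y ∈ LinearMap.ker (NY ^ (m + 1)), u y ∈ LinearMap.ker (NB ^ m) := by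
    intro y hy
    rw [LinearMap.mem_ker] at hy ⊢
    rw [hu, ← v₀_pow h0 h1, hy, map_zero]
  have m0 : ∀ y ∈ LinearMap.ker (NY ^ (m + 1)), v₀ y ∈ LinearMap.ker (NB ^ (m + 2)) := by
    intro y hy
    have e1 := mu y hy
    have e2 := m1 y hy
    rw [LinearMap.mem_ker] at e1 e2 ⊢
    have e3 : NB (v₀ y) = u y - ((m + 1 : ℕ) : k) • v₁ y := by rw [hu]; abel
    rw [pow_succ, Module.End.mul_apply, e3, map_sub, map_smul, e2, smul_zero, sub_zero,
      pow_succ', Module.End.mul_apply, e1, map_zero]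
  let θ : LinearMap.ker (NY ^ (m + 1)) →ₗ[k] LinearMap.ker (NA ^ (m + 1)) ×
      (LinearMap.ker (NB ^ (m + 2)) × (LinearMap.ker (NB ^ m) × LinearMap.ker (NC ^ (m + 1)))) :=
    (a.restrict mA).prod ((v₀.restrict m0).prod ((u.restrict mu).prod (b.restrict mC)))
  have hθ : Function.Bijective θ := by
    constructor
    · rw [← LinearMap.ker_eq_bot, LinearMap.ker_eq_bot']
      rintro ⟨y, hy⟩ h
      have e1 : a y = 0 := congrArg Subtype.val (Prod.ext_iff.1 h).1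
      have e2 : v₀ y = 0 := congrArg Subtype.val (Prod.ext_iff.1 (Prod.ext_iff.1 h).2).1
      have e3 : u y = 0 :=
        congrArg Subtype.val (Prod.ext_iff.1 (Prod.ext_iff.1 (Prod.ext_iff.1 h).2).2).1
      have e4 : b y = 0 :=
        congrArg Subtype.val (Prod.ext_iff.1 (Prod.ext_iff.1 (Prod.ext_iff.1 h).2).2).2
      have e5 : v₁ y = 0 := by
        rw [hu, e2, map_zero, zero_add, smul_eq_zero] at e3
        exact e3.resolve_left hm
      apply Subtype.ext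
      exact (hbij 0 0 0 0).unique ⟨e1, e2, e5, e4⟩
        ⟨map_zero _, map_zero _, map_zero _, map_zero _⟩
    · rintro ⟨⟨α, hα⟩, ⟨β, hβ⟩, ⟨γ, hγ⟩, ⟨δ, hδ⟩⟩
      obtain ⟨y, ⟨e1, e2, e3, e4⟩, -⟩ := hbij α β (((m + 1 : ℕ) : k)⁻¹ • (γ - NB β)) δ
      have e5 : u y = γ := by
        rw [hu, e2, e3, smul_inv_smul₀ hm]; abel
      rw [LinearMap.mem_ker] at hα hβ hγ hδ
      have hy : y ∈ LinearMap.ker (NY ^ (m + 1)) := by
        rw [LinearMap.mem_ker]
        refine (hbij 0 0 0 0).unique ⟨?_, ?_, ?_, ?_⟩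
          ⟨map_zero _, map_zero _, map_zero _, map_zero _⟩
        · rw [comp_pow ha, e1, hα]
        · rw [v₀_pow h0 h1, ← hu, e5, hγ]
        · rw [comp_pow h1, e3, map_smul, map_sub, pow_succ' NB m, Module.End.mul_apply, hγ,
            map_zero, ← pow_succ' NB m, ← Module.End.mul_apply, ← pow_succ NB (m + 1), hβ, sub_zero,
            smul_zero]
        · rw [comp_pow hb, e4, hδ]
      refine ⟨⟨y, hy⟩, ?_⟩
      refine Prod.ext (Subtype.ext e1) (Prod.ext (Subtype.ext e2)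
        (Prod.ext (Subtype.ext e5) (Subtype.ext e4)))
  let Θ := LinearEquiv.ofBijective θ hθ
  have h5 : Θ.conj (gY.restrict sY) = (gA.restrict sA).prodMap ((gB.restrict sB).prodMap
      ((q • gB.restrict sB').prodMap (q • gC.restrict sC))) := by
    refine LinearMap.ext fun x => ?_
    obtain ⟨y, rfl⟩ := Θ.surjective x
    rw [LinearEquiv.conj_apply_apply, LinearEquiv.symm_apply_apply]
    refine Prod.ext (Subtype.ext (hga y)) (Prod.ext (Subtype.ext (hg0 y))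
        (Prod.ext (Subtype.ext ?_) (Subtype.ext (hgb y))))
    change u (gY y) = q • gB (u y)
    rw [hu, hu, hg0, hg1, hNg, map_add, map_smul, smul_add, smul_comm q]
  rw [← LinearMap.trace_conj' (gY.restrict sY) Θ, h5, LinearMap.trace_prodMap',
    LinearMap.trace_prodMap', LinearMap.trace_prodMap', map_smul, map_smul, smul_eq_mul,
    smul_eq_mul]

end linear

variable {W : Type} [Group W] [TopologicalSpace W] {G : WeilGroup W} {Λ : Type} {K : Λ → Type}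
  [∀ ℓ, Field (K ℓ)] {R : Realisations W Λ K} [∀ ℓ, CharZero (K ℓ)]

/-- The linear map given by `e`. -/
def toLin {X Y : R.Obj} {ℓ : Λ} {e : R.V Y ℓ → R.V X ℓ} (h : IsHom R e) :
    R.V Y ℓ →ₗ[K ℓ] R.V X ℓ := ⟨⟨e, h.1⟩, h.2⟩

theorem trK_timesE (hR : Basic G R) {Y A B C : R.Obj} {ℓ : Λ} {a : R.V Y ℓ → R.V A ℓ}
    {v₀ v₁ : R.V Y ℓ → R.V B ℓ} {b : R.V Y ℓ → R.V C ℓ} (h : IsTimesE G R ℓ a v₀ v₁ b) (m : ℕ)
    (w : W) : trK hR Y ℓ (m + 1) w = trK hR A ℓ (m + 1) w + (trK hR B ℓ (m + 2) w +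
      ((qd G w : K ℓ) * trK hR B ℓ m w + (qd G w : K ℓ) * trK hR C ℓ (m + 1) w)) := by
  have i1 := hR.finite Y ℓ
  have i2 := hR.finite A ℓ
  have i3 := hR.finite B ℓ
  have i4 := hR.finite C ℓ
  exact trace_timesE (a := toLin h.linear.1) (v₀ := toLin h.linear.2.1)
    (v₁ := toLin h.linear.2.2.1) (b := toLin h.linear.2.2.2) h.bijective h.nil_a h.nil_v₀
    h.nil_v₁ h.nil_b (qd G w) (h.act_a w) (h.act_v₀ w) (h.act_v₁ w) (h.act_b w)
    (fun x => hR.N_ρ B ℓ w x) m _ _ _ _ _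

end Pool.Agent.TH121.WV
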